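import Mathlib
import Pool.Agent.H967R3.Cage.Fam

set_option autoImplicit false

namespace Pool.Agent.Results.MP_49aecc_co.RegularGirth

/-- There is a (finite, simple) `δ`-regular graph of order `n` whose girth is at least `g`. -/
def HasReg (n δ g : ℕ) : Prop :=
  ∃ G : SimpleGraph (Fin n), (∀ v, (G.neighborSet v).ncard = δ) ∧ (g : ℕ∞) ≤ G.egirth

/-- regular graphs on `Fin n` -/
theorem hasReg_exists (q : ℕ) (hq : IsPrimePow q) (i : ℕ) (hi : 1 ≤ i) (δ : ℕ) (hδ1 : 1 ≤ δ)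
    (hδ : δ ≤ q + 1) :
    ∃ n : ℕ, 0 < n ∧ Even n ∧ (q - 1) * n ≤ 2 * q ^ (3 * i + 1 - (i + 2) / 3) ∧
      HasReg n δ (4 * i + 2) := by
  classical
  obtain ⟨V, i1, i2, G, i3, hV, h1, h2, he, h3⟩ := Girth967.familyZR q hq i hi δ hδ1 hδ
  have hne : 0 < Fintype.card V := Fintype.card_pos
  refine ⟨Fintype.card V, hne, he, h3, G.overFin rfl, ?_, ?_⟩
  · intro v
    let e := G.overFinIso (n := Fintype.card V) rfl
    have e1 : (G.overFin rfl).neighborSet v ≃ G.neighborSet (e.symm v) := e.symm.mapNeighborSet v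
    rw [← Nat.card_coe_set_eq, Nat.card_congr e1, Nat.card_eq_fintype_card, SimpleGraph.card_neighborSet_eq_degree]
    exact h1 _
  · rw [← (G.overFinIso (n := Fintype.card V) rfl).egirth_eq]
    exact h2

theorem step (a q : ℕ) (hq : IsPrimePow q) (h : q ^ 58 ≤ a ^ 63) (x : ℕ) (h1 : a ≤ x) (h2 : x ≤ q) :
    ∃ q, IsPrimePow q ∧ x ≤ q ∧ q ^ 58 ≤ x ^ 63 :=
  ⟨q, hq, h2, h.trans (Nat.pow_le_pow_left h1 63)⟩

theorem pp_of (p k q : ℕ) (hp : p.Prime) (hk : 0 < k) (h : p ^ k = q) : IsPrimePow q :=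
  (isPrimePow_nat_iff q).mpr ⟨p, k, hp, hk, h⟩

theorem exists_primePow (x : ℕ) (hx : 2 ≤ x) : ∃ q, IsPrimePow q ∧ x ≤ q ∧ q ^ 58 ≤ x ^ 63 := by
  rcases le_or_gt 3109 x with h | h
  · obtain ⟨p, hp, h1, h2⟩ := Nat.exists_prime_lt_and_le_two_mul x (by omega)
    refine ⟨p, hp.isPrimePow, h1.le, ?_⟩
    calc p ^ 58 ≤ (2 * x) ^ 58 := Nat.pow_le_pow_left h2 58
      _ = 2 ^ 58 * x ^ 58 := by rw [mul_pow]
      _ ≤ x ^ 5 * x ^ 58 := by
          apply Nat.mul_le_mul_right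
          calc 2 ^ 58 ≤ 3109 ^ 5 := by norm_num
            _ ≤ x ^ 5 := Nat.pow_le_pow_left h 5
      _ = x ^ 63 := by rw [← pow_add]
  · have hP : ∀ p : ℕ, p.Prime → IsPrimePow p := fun p hp => hp.isPrimePow
    rcases le_or_gt x 2 with c | c; · exact step 2 2 (hP 2 (by norm_num)) (by norm_num) x hx c
    rcases le_or_gt x 3 with c' | c'; · exact step 3 3 (hP 3 (by norm_num)) (by norm_num) x (by omega) c'
    rcases le_or_gt x 4 with c | c; · exact step 4 4 (pp_of 2 2 4 (by norm_num) (by norm_num) (by norm_num)) (by norm_num) x (by omega) c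
    rcases le_or_gt x 5 with c' | c'; · exact step 5 5 (hP 5 (by norm_num)) (by norm_num) x (by omega) c'
    rcases le_or_gt x 7 with c | c; · exact step 6 7 (hP 7 (by norm_num)) (by norm_num) x (by omega) c
    rcases le_or_gt x 8 with c' | c'; · exact step 8 8 (pp_of 2 3 8 (by norm_num) (by norm_num) (by norm_num)) (by norm_num) x (by omega) c'
    rcases le_or_gt x 9 with c | c; · exact step 9 9 (pp_of 3 2 9 (by norm_num) (by norm_num) (by norm_num)) (by norm_num) x (by omega) c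
    rcases le_or_gt x 11 with c' | c'; · exact step 10 11 (hP 11 (by norm_num)) (by norm_num) x (by omega) c'
    rcases le_or_gt x 13 with c | c; · exact step 12 13 (hP 13 (by norm_num)) (by norm_num) x (by omega) c
    rcases le_or_gt x 16 with c' | c'; · exact step 14 16 (pp_of 2 4 16 (by norm_num) (by norm_num) (by norm_num)) (by norm_num) x (by omega) c'
    rcases le_or_gt x 19 with c | c; · exact step 17 19 (hP 19 (by norm_num)) (by norm_num) x (by omega) c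
    rcases le_or_gt x 23 with c' | c'; · exact step 20 23 (hP 23 (by norm_num)) (by norm_num) x (by omega) c'
    rcases le_or_gt x 29 with c | c; · exact step 24 29 (hP 29 (by norm_num)) (by norm_num) x (by omega) c
    rcases le_or_gt x 37 with c' | c'; · exact step 30 37 (hP 37 (by norm_num)) (by norm_num) x (by omega) c'
    rcases le_or_gt x 47 with c | c; · exact step 38 47 (hP 47 (by norm_num)) (by norm_num) x (by omega) c
    rcases le_or_gt x 61 with c' | c'; · exact step 48 61 (hP 61 (by norm_num)) (by norm_num) x (by omega) c'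
    rcases le_or_gt x 83 with c | c; · exact step 62 83 (hP 83 (by norm_num)) (by norm_num) x (by omega) c
    rcases le_or_gt x 113 with c' | c'; · exact step 84 113 (hP 113 (by norm_num)) (by norm_num) x (by omega) c'
    rcases le_or_gt x 167 with c | c; · exact step 114 167 (hP 167 (by norm_num)) (by norm_num) x (by omega) c
    rcases le_or_gt x 251 with c' | c'; · exact step 168 251 (hP 251 (by norm_num)) (by norm_num) x (by omega) c'
    rcases le_or_gt x 401 with c | c; · exact step 252 401 (hP 401 (by norm_num)) (by norm_num) x (by omega) c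
    rcases le_or_gt x 661 with c' | c'; · exact step 402 661 (hP 661 (by norm_num)) (by norm_num) x (by omega) c'
    rcases le_or_gt x 1151 with c | c; · exact step 662 1151 (hP 1151 (by norm_num)) (by norm_num) x (by omega) c
    rcases le_or_gt x 2099 with c' | c'; · exact step 1152 2099 (hP 2099 (by norm_num)) (by norm_num) x (by omega) c'
    exact step 2100 3109 (hP 3109 (by norm_num)) (by norm_num) x (by omega) (by omega)

theorem bound (q : ℕ) (hq : IsPrimePow q) (g δ : ℕ) (hg : 3 ≤ g) (hδ1 : 1 ≤ δ) (hδ : δ ≤ q + 1) :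
    ∃ n : ℕ, 0 < n ∧ Even n ∧ HasReg n δ g ∧
    (n : ℝ) ≤ 4 * (q : ℝ) ^ ((2 / 3 : ℝ) * (g + 1)) := by
  obtain ⟨n, hn0, hne, hcard, G, hG1, hG2⟩ := hasReg_exists q hq ((g + 1) / 4) (by omega) δ hδ1 hδ
  set i := (g + 1) / 4 with hi
  refine ⟨n, hn0, hne, ⟨G, hG1, le_trans (by exact_mod_cast (by omega : g ≤ 4 * i + 2)) hG2⟩, ?_⟩
  have hq2 := hq.two_le
  have hq1 : (1 : ℝ) ≤ q := by exact_mod_cast hq.one_lt.le
  have e : 3 * i + 1 - (i + 2) / 3 = (3 * i - (i + 2) / 3) + 1 := by omega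
  rw [e, pow_succ] at hcard
  have h5 : (q - 1) * n ≤ (q - 1) * (4 * q ^ (3 * i - (i + 2) / 3)) := by
    calc (q - 1) * n ≤ 2 * (q ^ (3 * i - (i + 2) / 3) * q) := hcard
      _ ≤ 2 * (q ^ (3 * i - (i + 2) / 3) * (2 * (q - 1))) := by
          have h4 : q ≤ 2 * (q - 1) := by omega
          gcongr
      _ = (q - 1) * (4 * q ^ (3 * i - (i + 2) / 3)) := by ring
  have h6 : n ≤ 4 * q ^ (3 * i - (i + 2) / 3) := Nat.le_of_mul_le_mul_left h5 (by omega)
  have h1 : (n : ℝ) ≤ 4 * (q : ℝ) ^ (3 * i - (i + 2) / 3) := by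
    exact_mod_cast h6
  have h3 : (q : ℝ) ^ (3 * i - (i + 2) / 3) ≤ (q : ℝ) ^ ((2 / 3 : ℝ) * (g + 1)) := by
    rw [← Real.rpow_natCast]
    apply Real.rpow_le_rpow_of_exponent_le hq1
    have h7 : 3 * (3 * i - (i + 2) / 3) ≤ 2 * (g + 1) := by omega
    have h8 : (3 : ℝ) * ((3 * i - (i + 2) / 3 : ℕ) : ℝ) ≤ 2 * ((g : ℝ) + 1) := by exact_mod_cast h7
    linarith
  linarith

/-- **Regular graphs of even order with girth at least `1.38 log_{δ-1} n`.** -/
theorem result :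
    (∀ q : ℕ, IsPrimePow q → ∀ i : ℕ, 1 ≤ i → ∀ δ : ℕ, 2 ≤ δ → δ ≤ q + 1 →
      ∃ n : ℕ, 0 < n ∧ Even n ∧ (q - 1) * n ≤ 2 * q ^ (3 * i + 1 - (i + 2) / 3) ∧
        HasReg n δ (4 * i + 2)) ∧
    (∀ δ : ℕ, 3 ≤ δ → ∀ᶠ g : ℕ in Filter.atTop, ∃ n : ℕ, 0 < n ∧ Even n ∧ HasReg n δ g ∧
      (n : ℝ) ≤ ((δ : ℝ) - 1) ^ ((0.7242 : ℝ) * g)) := by
  refine ⟨fun q hq i hi δ h1 h2 => hasReg_exists q hq i hi δ (by omega) h2, ?_⟩
  intro δ hδ
  obtain ⟨q, hq, hq1, hq2⟩ := exists_primePow (δ - 1) (by omega)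
  have hδ1 : ((δ - 1 : ℕ) : ℝ) = (δ : ℝ) - 1 := by
    have : 1 ≤ δ := by omega
    push_cast [this]; ring
  set x : ℝ := (δ : ℝ) - 1 with hx
  have hx2 : (2 : ℝ) ≤ x := by
    have : (3 : ℝ) ≤ δ := by exact_mod_cast hδ
    linarith
  have hx0 : (0 : ℝ) < x := by linarith
  have hq0 : (0 : ℝ) < q := by exact_mod_cast hq.pos
  have hqx : (q : ℝ) ≤ x ^ ((63 / 58 : ℝ)) := by
    have h1 : (q : ℝ) ^ 58 ≤ x ^ 63 := by rw [← hδ1]; exact_mod_cast hq2
    have h2 : (q : ℝ) = ((q : ℝ) ^ 58) ^ ((1 / 58 : ℝ)) := by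
      rw [← Real.rpow_natCast, ← Real.rpow_mul hq0.le]; norm_num
    rw [h2]
    calc ((q : ℝ) ^ 58) ^ ((1 / 58 : ℝ)) ≤ (x ^ 63) ^ ((1 / 58 : ℝ)) :=
          Real.rpow_le_rpow (by positivity) h1 (by norm_num)
      _ = x ^ ((63 / 58 : ℝ)) := by
          rw [← Real.rpow_natCast, ← Real.rpow_mul hx0.le]; norm_num
  have hC : (0 : ℝ) < 4 * (q : ℝ) ^ (2 / 3 : ℝ) := by positivity
  obtain ⟨G0, hG0⟩ := exists_nat_gt (Real.logb x (4 * (q : ℝ) ^ (2 / 3 : ℝ)) / (0.7242 - 21 / 29))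
  filter_upwards [Filter.eventually_ge_atTop (G0 + 3)] with g hg
  obtain ⟨n, hn0, hne, hreg, hb⟩ := bound q hq g δ (by omega) (by omega) (by omega)
  refine ⟨n, hn0, hne, hreg, hb.trans ?_⟩
  have hsplit : 4 * (q : ℝ) ^ ((2 / 3 : ℝ) * (g + 1)) = 4 * (q : ℝ) ^ (2 / 3 : ℝ) * (q : ℝ) ^ ((2 / 3 : ℝ) * g) := by
    rw [mul_assoc, ← Real.rpow_add hq0]; congr 2; ring
  rw [hsplit]
  have h3 : (q : ℝ) ^ ((2 / 3 : ℝ) * g) ≤ x ^ ((21 / 29 : ℝ) * g) := by
    calc (q : ℝ) ^ ((2 / 3 : ℝ) * g) ≤ (x ^ ((63 / 58 : ℝ))) ^ ((2 / 3 : ℝ) * g) :=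
          Real.rpow_le_rpow hq0.le hqx (by positivity)
      _ = x ^ ((21 / 29 : ℝ) * g) := by
          rw [← Real.rpow_mul hx0.le]; congr 1; ring
  have h4 : 4 * (q : ℝ) ^ (2 / 3 : ℝ) ≤ x ^ ((0.7242 - 21 / 29 : ℝ) * g) := by
    have h5 : Real.logb x (4 * (q : ℝ) ^ (2 / 3 : ℝ)) ≤ (0.7242 - 21 / 29) * g := by
      have h6 : Real.logb x (4 * (q : ℝ) ^ (2 / 3 : ℝ)) / (0.7242 - 21 / 29) ≤ g := by
        have : (G0 : ℝ) ≤ g := by exact_mod_cast (by omega : G0 ≤ g)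
        linarith
      rw [div_le_iff₀ (by norm_num)] at h6
      linarith
    rwa [Real.logb_le_iff_le_rpow (by linarith) hC] at h5
  calc 4 * (q : ℝ) ^ (2 / 3 : ℝ) * (q : ℝ) ^ ((2 / 3 : ℝ) * g)
      ≤ x ^ ((0.7242 - 21 / 29 : ℝ) * g) * x ^ ((21 / 29 : ℝ) * g) := by gcongr
    _ = x ^ ((0.7242 : ℝ) * g) := by
        rw [← Real.rpow_add hx0]; congr 1; ring

end Pool.Agent.Results.MP_49aecc_co.RegularGirth
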